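import Pool.Agent.H44.EHN.Stmts

/-! Project EHN, row COR (finite form). -/

set_option autoImplicit false

open Classical

namespace EHN

theorem COR_thm (hFAC : FACStmt) (hBAD : BADStmt) (hCNT : CNTStmt) (hBLK : BLKStmt)
    (hREL : RELStmt) : CORStmt := by
  intro d D N J L B w x Y Q hD hdD hJ hL hB hDJ hQ hQc hx hY hYB hBf
  have hD1 : 1 ≤ D := hD.pos
  have hq3 : ∀ q ∈ Q, 3 ≤ q := fun q hq => hB.trans (hQ q hq).2.1
  by_cases hG : 2 * (Q.filter (fun q => Good d Y (D * q))).card < Q.card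
  · left
    have hsum := Finset.card_filter_add_card_filter_not (s := Q) (fun q => Good d Y (D * q))
    have hc := hCNT (Q.filter (fun q => ¬ Good d Y (D * q)))
      ((S d Y).filter (fun m => m < Y)) B w (by omega)
      (fun q hq => ⟨(hQ q (Finset.mem_filter.1 hq).1).1, (hQ q (Finset.mem_filter.1 hq).1).2.1⟩)
      (by
        intro m hm
        rw [Finset.mem_filter] at hm
        refine ⟨?_, hm.2.trans_le hYB⟩
        have := hm.1
        unfold S at this
        rw [Finset.mem_filter, Finset.mem_Icc] at this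
        exact this.1.1)
      (by
        intro q hq
        rw [Finset.mem_filter] at hq
        obtain ⟨hqQ, hqG⟩ := hq
        obtain ⟨hp, hBq, hqN, hnp⟩ := hQ q hqQ
        have hN1 : 1 ≤ N := by omega
        have hDN : 1 ≤ D * N := Nat.mul_pos hD1 hN1
        have hlt : D * q < Y := by
          have h1 : D * q ≤ D * N := Nat.mul_le_mul_left D hqN
          have h2 : D * N ≤ (D * N) ^ 2 := Nat.le_self_pow (by norm_num) _
          have h3 : 1 ≤ (2 * D * N) ^ (D * J + 1) := Nat.one_le_pow _ _ (by nlinarith)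
          have h4 : (D * N) ^ 2 ≤ L * (D * N) ^ 2 := Nat.le_mul_of_pos_left _ hL
          have h5 : 8 * (L * (D * N) ^ 2) ≤ 8 * (L * (D * N) ^ 2) * (2 * D * N) ^ (D * J + 1) :=
            Nat.le_mul_of_pos_right _ h3
          rw [← hY] at h5
          omega
        obtain ⟨m, hm, hmY, hqm⟩ := hBAD d D q Y hD hdD hp (hq3 q hqQ) hnp hlt hqG
        exact ⟨m, Finset.mem_filter.2 ⟨hm, hmY⟩, hqm⟩)
    have hcard : ((S d Y).filter (fun m => m < Y)).card ≤ (S d Y).card :=
      Finset.card_filter_le _ _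
    have h6 : w * ((S d Y).filter (fun m => m < Y)).card ≤ w * (S d Y).card :=
      Nat.mul_le_mul_left w hcard
    have h7 : 2 * w * (S d Y).card = 2 * (w * (S d Y).card) := by ring
    rw [h7]
    omega
  · right
    have hG2 : 2 * L * (N / J + 1) ≤ (Q.filter (fun q => Good d Y (D * q))).card := by
      have h1 : 4 * L * (N / J + 1) = 2 * (2 * L * (N / J + 1)) := by ring
      rw [h1] at hQc
      omega
    obtain ⟨a, b, hab, hij, hblk⟩ := hBLK (Q.filter (fun q => Good d Y (D * q))) N J L hJ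
      (fun q hq => (hQ q (Finset.mem_filter.1 hq).1).2.2.1) hG2
    have haQ : ∀ i < L, a i ∈ Q ∧ Good d Y (D * a i) := fun i hi =>
      Finset.mem_filter.1 (hab i hi).1
    have hbQ : ∀ i < L, b i ∈ Q ∧ Good d Y (D * b i) := fun i hi =>
      Finset.mem_filter.1 (hab i hi).2.1
    have hfac : ∀ q ∈ Q, Good d Y (D * q) → ∃ e : ℕ → ℕ,
        (D * q).factorial + 1 = ∏ m ∈ (S d x).filter (fun m => Y ≤ m + 1), (m + 1 + D * q) ^ e m ∧
        ∑ m ∈ (S d x).filter (fun m => Y ≤ m + 1), e m ≤ (D * N) ^ 2 := by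
      intro q hq hg
      have h3 := hq3 q hq
      have hqN := (hQ q hq).2.2.1
      have h1 : D * q ≤ D * N := Nat.mul_le_mul_left D hqN
      obtain ⟨e, he, hes⟩ := hFAC d Y (D * q) x (Nat.mul_pos hD1 (by omega))
        ((Nat.factorial_le h1).trans hx) hg
      exact ⟨e, he, hes.trans (Nat.pow_le_pow_left h1 2)⟩
    have hea : ∀ i : ℕ, ∃ e : ℕ → ℕ, i < L →
        ((D * a i).factorial + 1 = ∏ m ∈ (S d x).filter (fun m => Y ≤ m + 1),
          (m + 1 + D * a i) ^ e m ∧
        ∑ m ∈ (S d x).filter (fun m => Y ≤ m + 1), e m ≤ (D * N) ^ 2) := by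
      intro i
      by_cases hi : i < L
      · obtain ⟨e, he⟩ := hfac (a i) (haQ i hi).1 (haQ i hi).2
        exact ⟨e, fun _ => he⟩
      · exact ⟨0, fun h => absurd h hi⟩
    have heb : ∀ i : ℕ, ∃ e : ℕ → ℕ, i < L →
        ((D * b i).factorial + 1 = ∏ m ∈ (S d x).filter (fun m => Y ≤ m + 1),
          (m + 1 + D * b i) ^ e m ∧
        ∑ m ∈ (S d x).filter (fun m => Y ≤ m + 1), e m ≤ (D * N) ^ 2) := by
      intro i
      by_cases hi : i < L
      · obtain ⟨e, he⟩ := hfac (b i) (hbQ i hi).1 (hbQ i hi).2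
        exact ⟨e, fun _ => he⟩
      · exact ⟨0, fun h => absurd h hi⟩
    choose ea hea using hea
    choose eb heb using heb
    have ha0 : a 0 ∈ Q := (haQ 0 hL).1
    have ha0B : B ≤ a 0 := (hQ _ ha0).2.1
    have ha0N : a 0 ≤ N := (hQ _ ha0).2.2.1
    have hx0 : 1 ≤ D * a 0 := Nat.mul_pos hD1 (by omega)
    have hN : B ≤ N := ha0B.trans ha0N
    have hND : N ≤ D * N := Nat.le_mul_of_pos_left _ hD1
    have hxH : D * a 0 + D * J ≤ 2 * D * N := by
      have h1 : D * a 0 ≤ D * N := Nat.mul_le_mul_left D ha0N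
      have h2 : 2 * D * N = D * N + D * N := by ring
      omega
    have hrel := hREL L (D * J) (D * a 0) Y ((D * N) ^ 2) (fun i => D * a i) (fun i => D * b i) b
      ((S d x).filter (fun m => Y ≤ m + 1)) ea eb hx0
      (by
        intro i hi
        obtain ⟨h1, h2⟩ := hblk i hi
        obtain ⟨hbp, hBb, -, -⟩ := hQ _ (hbQ i hi).1
        refine ⟨Nat.mul_le_mul_left D h1, ?_, ?_, hbp, Dvd.intro_left _ rfl, ?_⟩
        · exact Nat.mul_lt_mul_of_pos_left (hab i hi).2.2 hD1
        · rw [← Nat.mul_add]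
          exact Nat.mul_le_mul_left D h2
        · exact hDJ.trans_le hBb)
      (by
        intro i j h1 h2
        exact Nat.mul_lt_mul_of_pos_left (hij i j h1 h2) hD1)
      (fun m hm => (Finset.mem_filter.1 hm).2)
      (fun i hi => hea i hi)
      (fun i hi => heb i hi)
      (by
        have h1 : (D * a 0 + D * J) ^ (D * J) ≤ (2 * D * N) ^ (D * J) :=
          Nat.pow_le_pow_left hxH _
        have h2 : B ≤ D * a 0 := ha0B.trans (Nat.le_mul_of_pos_left _ hD1)
        calc 8 * L * (D * a 0 + D * J) ^ (D * J) ≤ 8 * L * (2 * D * N) ^ (D * J) :=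
              Nat.mul_le_mul_left _ h1
          _ ≤ B.factorial := hBf
          _ ≤ (D * a 0).factorial := Nat.factorial_le h2)
      (by
        rw [hY]
        exact Nat.mul_le_mul_left _ (Nat.pow_le_pow_left hxH _))
    refine hrel.trans ?_
    exact Nat.pow_le_pow_right (by omega) (Finset.card_filter_le _ _)

end EHN
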